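import Pool.Agent.E8helper50.SR.S

/-!
# Project SR: the superalgebra `A[ε]`
-/

set_option autoImplicit false

universe u

namespace Pool.Agent.E8helper45.SR

open Pool.Agent.E8helper50.SR

variable {F : Type u} [Field F] (A : SAlg F)

/-- the parity automorphism, as a linear map -/
noncomputable def tau : A →ₗ[F] A :=
  (2 : F) • ((A.gr 0).subtype ∘ₗ (Submodule.projectionOnto (A.gr 0) (A.gr 1) A.compl)) -
    LinearMap.id

lemma tau_even {x : A} (hx : x ∈ A.gr 0) : tau A x = x := by
  have h : Submodule.projectionOnto (A.gr 0) (A.gr 1) A.compl x = ⟨x, hx⟩ :=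
    Submodule.projectionOnto_apply_left A.compl ⟨x, hx⟩
  simp only [tau, LinearMap.sub_apply, LinearMap.smul_apply, LinearMap.comp_apply, h,
    Submodule.subtype_apply, LinearMap.id_apply]
  rw [two_smul]
  abel

lemma tau_odd {x : A} (hx : x ∈ A.gr 1) : tau A x = -x := by
  have h : Submodule.projectionOnto (A.gr 0) (A.gr 1) A.compl x = 0 :=
    Submodule.projectionOnto_apply_right A.compl ⟨x, hx⟩
  simp only [tau, LinearMap.sub_apply, LinearMap.smul_apply, LinearMap.comp_apply, h,
    map_zero, smul_zero, LinearMap.id_apply, zero_sub]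

lemma decomp (x : A) : ∃ y ∈ A.gr 0, ∃ z ∈ A.gr 1, y + z = x := by
  have h : x ∈ A.gr 0 ⊔ A.gr 1 := by
    rw [A.compl.sup_eq_top]
    exact Submodule.mem_top
  exact Submodule.mem_sup.mp h

lemma tau_mem (i : ZMod 2) {x : A} (hx : x ∈ A.gr i) : tau A x ∈ A.gr i := by
  fin_cases i
  · change x ∈ A.gr 0 at hx
    change tau A x ∈ A.gr 0
    rw [tau_even A hx]
    exact hx
  · change x ∈ A.gr 1 at hx
    change tau A x ∈ A.gr 1
    rw [tau_odd A hx]
    exact neg_mem hx

lemma tau_mul (x y : A) : tau A (x * y) = tau A x * tau A y := by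
  obtain ⟨x0, hx0, x1, hx1, rfl⟩ := decomp A x
  obtain ⟨y0, hy0, y1, hy1, rfl⟩ := decomp A y
  have h00 : x0 * y0 ∈ A.gr 0 := A.mul_mem 0 0 _ _ hx0 hy0
  have h01 : x0 * y1 ∈ A.gr 1 := A.mul_mem 0 1 _ _ hx0 hy1
  have h10 : x1 * y0 ∈ A.gr 1 := A.mul_mem 1 0 _ _ hx1 hy0
  have h11 : x1 * y1 ∈ A.gr 0 := A.mul_mem 1 1 _ _ hx1 hy1
  have e : (x0 + x1) * (y0 + y1) = x0 * y0 + x0 * y1 + (x1 * y0 + x1 * y1) := by
    rw [add_mul, mul_add, mul_add]
  rw [e]
  simp only [map_add]
  rw [tau_even A h00, tau_odd A h01, tau_odd A h10, tau_even A h11, tau_even A hx0,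
    tau_odd A hx1, tau_even A hy0, tau_odd A hy1]
  simp only [add_mul, mul_add, mul_neg, neg_mul]
  abel

/-- the underlying space of `A[ε]` -/
def Eps : Type u := A × A

noncomputable instance : AddCommGroup (Eps A) := inferInstanceAs (AddCommGroup (A × A))

noncomputable instance : Module F (Eps A) := inferInstanceAs (Module F (A × A))

noncomputable instance : Mul (Eps A) :=
  ⟨fun x y => ((x.1 * y.1, x.1 * y.2 + x.2 * tau A y.1) : A × A)⟩

lemma eps_ext {x y : Eps A} (h1 : x.1 = y.1) (h2 : x.2 = y.2) : x = y := Prod.ext h1 h2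

@[simp] lemma mul_fst (x y : Eps A) : (x * y).1 = x.1 * y.1 := rfl

@[simp] lemma mul_snd (x y : Eps A) : (x * y).2 = x.1 * y.2 + x.2 * tau A y.1 := rfl

@[simp] lemma add_fst (x y : Eps A) : (x + y).1 = x.1 + y.1 := rfl

@[simp] lemma add_snd (x y : Eps A) : (x + y).2 = x.2 + y.2 := rfl

@[simp] lemma zero_fst : (0 : Eps A).1 = 0 := rfl

@[simp] lemma zero_snd : (0 : Eps A).2 = 0 := rfl

@[simp] lemma smul_fst (c : F) (x : Eps A) : (c • x).1 = c • x.1 := rfl

@[simp] lemma smul_snd (c : F) (x : Eps A) : (c • x).2 = c • x.2 := rfl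

noncomputable instance : NonUnitalRing (Eps A) where
  left_distrib x y z := by
    apply eps_ext
    · simp [mul_add]
    · simp only [mul_snd, add_snd, add_fst, map_add, mul_add]
      abel
  right_distrib x y z := by
    apply eps_ext
    · simp [add_mul]
    · simp only [mul_snd, add_snd, add_fst, add_mul]
      abel
  zero_mul x := by
    apply eps_ext <;> simp
  mul_zero x := by
    apply eps_ext <;> simp
  mul_assoc x y z := by
    apply eps_ext
    · simp [mul_assoc]
    · simp only [mul_snd, mul_fst, tau_mul, mul_add, add_mul, mul_assoc]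
      abel

instance : IsScalarTower F (Eps A) (Eps A) where
  smul_assoc c x y := by
    apply eps_ext
    · simp [smul_mul_assoc]
    · simp only [smul_eq_mul, mul_snd, smul_fst, smul_snd, smul_add, smul_mul_assoc]

instance : SMulCommClass F (Eps A) (Eps A) where
  smul_comm c x y := by
    apply eps_ext
    · simp [mul_smul_comm]
    · simp only [smul_eq_mul, mul_snd, smul_fst, smul_snd, smul_add, mul_smul_comm, map_smul]

/-- the grading -/
def egr (i : ZMod 2) : Submodule F (Eps A) where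
  carrier := {x | x.1 ∈ A.gr i ∧ x.2 ∈ A.gr (i + 1)}
  add_mem' := fun hx hy => ⟨add_mem hx.1 hy.1, add_mem hx.2 hy.2⟩
  zero_mem' := ⟨zero_mem _, zero_mem _⟩
  smul_mem' := fun c _ hx => ⟨Submodule.smul_mem _ c hx.1, Submodule.smul_mem _ c hx.2⟩

lemma mem_egr (i : ZMod 2) (x : Eps A) : x ∈ egr A i ↔ x.1 ∈ A.gr i ∧ x.2 ∈ A.gr (i + 1) :=
  Iff.rfl

lemma ecompl : IsCompl (egr A 0) (egr A 1) := by
  constructor
  · rw [Submodule.disjoint_def]
    intro x h0 h1
    have hd := Submodule.disjoint_def.mp A.compl.disjoint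
    apply eps_ext
    · exact hd _ h0.1 h1.1
    · exact hd _ h1.2 h0.2
  · rw [codisjoint_iff, eq_top_iff]
    intro x _
    obtain ⟨y0, hy0, y1, hy1, hy⟩ := decomp A x.1
    obtain ⟨z0, hz0, z1, hz1, hz⟩ := decomp A x.2
    refine Submodule.mem_sup.mpr ⟨((y0, z1) : A × A), ⟨hy0, hz1⟩, ((y1, z0) : A × A),
      ⟨hy1, hz0⟩, ?_⟩
    apply eps_ext
    · exact hy
    · change z1 + z0 = x.2
      rw [← hz, add_comm]

lemma emul (i j : ZMod 2) (x y : Eps A) (hx : x ∈ egr A i) (hy : y ∈ egr A j) :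
    x * y ∈ egr A (i + j) := by
  refine ⟨A.mul_mem _ _ _ _ hx.1 hy.1, add_mem ?_ ?_⟩
  · have := A.mul_mem _ _ _ _ hx.1 hy.2
    rwa [← add_assoc] at this
  · have := A.mul_mem _ _ _ _ hx.2 (tau_mem A j hy.1)
    have e : i + 1 + j = i + j + 1 := by ring
    rwa [e] at this

/-- `A[ε]` -/
noncomputable def EA : SAlg F where
  carrier := Eps A
  gr := egr A
  compl := ecompl A
  mul_mem := emul A

/-- piece EPX: the superalgebra `A[ε]`. -/
theorem t_EPX : S_EPX.{u} := by
  intro F _ A
  refine ⟨EA A, LinearMap.inl F A A, LinearMap.inr F A A, ?_, ?_, ?_, ?_, ?_, ?_, ?_, ?_, ?_⟩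
  · intro x y
    apply eps_ext
    · rfl
    · change (0 : A) = x * 0 + 0 * tau A y
      rw [mul_zero, zero_mul, add_zero]
  · intro i x hx
    exact ⟨hx, zero_mem _⟩
  · intro i x hx
    refine ⟨zero_mem _, ?_⟩
    have e : i + 1 + 1 = i := by
      have h2 : (1 + 1 : ZMod 2) = 0 := by decide
      rw [add_assoc, h2, add_zero]
    rw [e]
    exact hx
  · exact LinearMap.inr_injective
  · intro i z hz
    refine ⟨z.1, hz.1, z.2, hz.2, ?_⟩
    apply eps_ext
    · change z.1 = z.1 + 0
      rw [add_zero]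
    · change z.2 = 0 + z.2
      rw [zero_add]
  · intro x y
    apply eps_ext
    · change x * 0 = 0
      rw [mul_zero]
    · change x * y + 0 * tau A 0 = x * y
      rw [zero_mul, add_zero]
  · intro x y
    apply eps_ext
    · change (0 : A) * 0 = 0
      rw [mul_zero]
    · change 0 * y + x * tau A 0 = 0
      rw [map_zero, mul_zero, zero_mul, add_zero]
  · intro x y hy
    apply eps_ext
    · change (0 : A) * y = 0
      rw [zero_mul]
    · change 0 * 0 + x * tau A y = x * y
      rw [tau_even A hy, mul_zero, zero_add]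
  · intro x y hy
    apply eps_ext
    · change (0 : A) * y = -0
      rw [zero_mul, neg_zero]
    · change 0 * 0 + x * tau A y = -(x * y)
      rw [tau_odd A hy, mul_zero, zero_add, mul_neg]

end Pool.Agent.E8helper45.SR
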